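import Mathlib
import Pool.Agent.Q115.SUGood

set_option autoImplicit false

/-!
# Every element of `SU(n)`, `n ≥ 3`, is a product of four involutions of `SU(n)`
-/

namespace Pool.Agent.Results.MP_ca7eb7_al.FourInvolutions

open Matrix Pool.Agent.Q115.SUSpec Pool.Agent.Q115.SUChain Pool.Agent.Q115.SUGood

/-- transport of a special unitary involution -/
theorem tp_inv {ι κ : Type} [Fintype ι] [DecidableEq ι] [Fintype κ] [DecidableEq κ]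
    {V : Matrix ι ι ℂ} (hV : V ∈ unitaryGroup ι ℂ) (e : ι ≃ κ) {J : Matrix κ κ ℂ}
    (h1 : J ∈ unitaryGroup κ ℂ) (h2 : J * J = 1) (h3 : J.det = 1) :
    tp V e J ∈ unitaryGroup ι ℂ ∧ tp V e J * tp V e J = 1 ∧ (tp V e J).det = 1 :=
  ⟨tp_unitary hV e h1, by rw [← tp_mul hV, h2, tp_one hV], by rw [tp_det hV, h3]⟩

/-- **Main theorem.**  For `n ≥ 3`, every element of `SU(n, ℂ)` is a product of four involutions of
`SU(n, ℂ)`. -/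
theorem result (n : ℕ) (hn : 3 ≤ n) (A : specialUnitaryGroup (Fin n) ℂ) :
    ∃ J₁ J₂ J₃ J₄ : specialUnitaryGroup (Fin n) ℂ,
      J₁ * J₁ = 1 ∧ J₂ * J₂ = 1 ∧ J₃ * J₃ = 1 ∧ J₄ * J₄ = 1 ∧ A = J₁ * J₂ * J₃ * J₄ := by
  obtain ⟨C, hC⟩ := A
  obtain ⟨hCu, hCd⟩ := mem_specialUnitaryGroup_iff.1 hC
  obtain ⟨S, hS, hSn, hSc⟩ := exists_Sp hCu
  have hSp : S.prod = 1 := by rw [← hS.det, hCd]
  obtain ⟨X, Y, ⟨ι, _, _, A, B, hA, hB, hAB⟩, ⟨κ, _, _, J, K, a1, a2, a3, a4, a5, a6, a7⟩,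
    ⟨κ', _, _, J', K', b1, b2, b3, b4, b5, b6, b7⟩⟩ := good S hSn hSp (by omega)
  obtain ⟨V, hV, e, rfl⟩ := hA.transport a7
  obtain ⟨V', hV', e', rfl⟩ := hB.transport b7
  obtain ⟨V'', hV'', e'', rfl⟩ := hS.transport hAB
  obtain ⟨c1, c2, c3⟩ := tp_inv hV e a1 a3 a5
  obtain ⟨d1, d2, d3⟩ := tp_inv hV e a2 a4 a6
  obtain ⟨c1', c2', c3'⟩ := tp_inv hV' e' b1 b3 b5
  obtain ⟨d1', d2', d3'⟩ := tp_inv hV' e' b2 b4 b6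
  obtain ⟨p1, p2, p3⟩ := tp_inv hV'' e'' c1 c2 c3
  obtain ⟨q1, q2, q3⟩ := tp_inv hV'' e'' d1 d2 d3
  obtain ⟨p1', p2', p3'⟩ := tp_inv hV'' e'' c1' c2' c3'
  obtain ⟨q1', q2', q3'⟩ := tp_inv hV'' e'' d1' d2' d3'
  refine ⟨⟨_, mem_specialUnitaryGroup_iff.2 ⟨p1, p3⟩⟩, ⟨_, mem_specialUnitaryGroup_iff.2 ⟨q1, q3⟩⟩,
    ⟨_, mem_specialUnitaryGroup_iff.2 ⟨p1', p3'⟩⟩, ⟨_, mem_specialUnitaryGroup_iff.2 ⟨q1', q3'⟩⟩,
    Subtype.ext p2, Subtype.ext q2, Subtype.ext p2', Subtype.ext q2', Subtype.ext ?_⟩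
  change tp V'' e'' (tp V e (J * K) * tp V' e' (J' * K')) =
    tp V'' e'' (tp V e J) * tp V'' e'' (tp V e K) * tp V'' e'' (tp V' e' J') *
      tp V'' e'' (tp V' e' K')
  rw [tp_mul hV e, tp_mul hV' e', tp_mul hV'', tp_mul hV'', tp_mul hV'']
  simp only [mul_assoc]

end Pool.Agent.Results.MP_ca7eb7_al.FourInvolutions
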